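import Pool.Agent.H65.NV.PTargets

/-!
# (PU0) the bump function
-/

set_option autoImplicit false

open MeasureTheory Set Filter NumberField NumberField.InfinitePlace
open Pool.Agent.H65.CM4 Pool.Agent.H61.NVK Pool.Agent.H89.NV Pool.Agent.H65.NV
open scoped Real

namespace Pool.Agent.H93.NVP_PU0

variable (k : Type) [Field k] [NumberField k] [IsTotallyReal k]

omit [IsTotallyReal k] in
theorem thb_pos_eq (R : ℝ) (u : Pl k → ℝ) (hu : ∀ v, 0 < u v) :
    thb R u = ∏ v, ∏ w, Real.smoothTransition (2 - u v / (R * u w)) := by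
  unfold thb
  rw [if_pos hu]

omit [IsTotallyReal k] in
theorem thb_neg_eq (R : ℝ) (u : Pl k → ℝ) (hu : ¬ ∀ v, 0 < u v) : thb R u = 0 := by
  unfold thb
  rw [if_neg hu]

theorem pf_PU0 (hEMB : T_EMB k) : T_PU0 k := by
  intro R hR
  have hR0 : 0 < R := by linarith
  refine ⟨?_, ?_, ?_, ?_, ?_, ?_⟩
  · intro u
    by_cases hu : ∀ v, 0 < u v
    · rw [thb_pos_eq k R u hu]
      refine ⟨Finset.prod_nonneg fun v _ => Finset.prod_nonneg fun w _ =>
        Real.smoothTransition.nonneg _, ?_⟩
      exact Finset.prod_le_one (fun v _ => Finset.prod_nonneg fun w _ =>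
        Real.smoothTransition.nonneg _) fun v _ =>
          Finset.prod_le_one (fun w _ => Real.smoothTransition.nonneg _) fun w _ =>
            Real.smoothTransition.le_one _
    · rw [thb_neg_eq k R u hu]
      exact ⟨le_refl _, zero_le_one⟩
  · intro u hu hb
    rw [thb_pos_eq k R u hu]
    refine Finset.prod_eq_one fun v _ => Finset.prod_eq_one fun w _ => ?_
    apply Real.smoothTransition.one_of_one_le
    have h1 : u v / (R * u w) ≤ 1 := by
      rw [div_le_one (mul_pos hR0 (hu w))]
      exact hb v w
    linarith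
  · intro u hne
    by_cases hu : ∀ v, 0 < u v
    · refine ⟨hu, ?_⟩
      rw [thb_pos_eq k R u hu] at hne
      intro v w
      have h1 : ∏ w, Real.smoothTransition (2 - u v / (R * u w)) ≠ 0 :=
        (Finset.prod_ne_zero_iff.mp hne) v (Finset.mem_univ _)
      have h2 : Real.smoothTransition (2 - u v / (R * u w)) ≠ 0 :=
        (Finset.prod_ne_zero_iff.mp h1) w (Finset.mem_univ _)
      have h3 : ¬ (2 - u v / (R * u w) ≤ 0) := fun h =>
        h2 (Real.smoothTransition.zero_of_nonpos h)
      have h4 : u v / (R * u w) < 2 := by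
        push Not at h3
        linarith
      rw [div_lt_iff₀ (mul_pos hR0 (hu w))] at h4
      linarith
    · exact absurd (thb_neg_eq k R u hu) hne
  · intro u t ht
    by_cases hu : ∀ v, 0 < u v
    · have hu' : ∀ v, 0 < (fun v => t * u v) v := fun v => mul_pos ht (hu v)
      rw [thb_pos_eq k R u hu, thb_pos_eq k R _ hu']
      refine Finset.prod_congr rfl fun v _ => Finset.prod_congr rfl fun w _ => ?_
      have h1 : t * u v / (R * (t * u w)) = u v / (R * u w) := by
        rw [show R * (t * u w) = t * (R * u w) by ring]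
        exact mul_div_mul_left _ _ ht.ne'
      simp only [h1]
    · have hu' : ¬ ∀ v, 0 < (fun v => t * u v) v := by
        intro h
        apply hu
        intro v
        exact (mul_pos_iff_of_pos_left ht).mp (h v)
      rw [thb_neg_eq k R u hu, thb_neg_eq k R _ hu']
  · have hc : ContDiffOn ℝ (⊤ : ℕ∞)
        (fun u : Pl k → ℝ => ∏ v, ∏ w, Real.smoothTransition (2 - u v / (R * u w)))
        {u | ∀ v, 0 < u v} := by
      refine contDiffOn_prod fun v _ => contDiffOn_prod fun w _ => ?_
      refine (Real.smoothTransition.contDiff (n := (⊤ : ℕ∞))).comp_contDiffOn ?_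
      refine contDiffOn_const.sub ?_
      refine ContDiffOn.div (contDiff_apply ℝ ℝ v).contDiffOn
        (contDiffOn_const.mul (contDiff_apply ℝ ℝ w).contDiffOn) ?_
      intro u hu
      exact (mul_pos hR0 (hu w)).ne'
    refine hc.congr ?_
    intro u hu
    exact thb_pos_eq k R u hu
  · intro α hα
    rcases lt_or_ge 1 α with h1 | h1
    · refine ⟨1, one_pos, ?_⟩
      intro u _ _ hmem
      exfalso
      have h2 : 1 / α < 1 := by
        rw [div_lt_one hα]
        exact h1
      linarith [hmem.1, hmem.2]
    · have h2R : 0 < 2 * R := by linarith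
      refine ⟨α / (2 * R), div_pos hα h2R, ?_⟩
      intro u hu hb hmem v
      have hcard : Fintype.card (Pl k) ≠ 0 := by
        rw [hEMB.1]
        exact hEMB.2.1.ne'
      have hpow : α ^ Fintype.card (Pl k) ≤ α := pow_le_of_le_one hα.le h1 hcard
      have hP0 : 0 < ∏ w, u w := Finset.prod_pos fun w _ => hu w
      constructor
      · rw [div_le_iff₀ h2R]
        have h3 : ∏ w, u w ≤ ∏ _w : Pl k, (2 * R * u v) :=
          Finset.prod_le_prod (fun w _ => (hu w).le) fun w _ => hb w v
        rw [Finset.prod_const, Finset.card_univ] at h3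
        have h4 : α ^ Fintype.card (Pl k) ≤ (2 * R * u v) ^ Fintype.card (Pl k) :=
          hpow.trans (hmem.1.trans h3)
        have h5 := le_of_pow_le_pow_left₀ hcard (mul_pos h2R (hu v)).le h4
        linarith
      · have h3 : ∏ _w : Pl k, u v ≤ ∏ w, (2 * R * u w) :=
          Finset.prod_le_prod (fun w _ => (hu v).le) fun w _ => hb v w
        rw [Finset.prod_const, Finset.card_univ, Finset.prod_mul_distrib, Finset.prod_const,
          Finset.card_univ] at h3
        have h4 : (u v * α) ^ Fintype.card (Pl k) ≤ (2 * R) ^ Fintype.card (Pl k) := by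
          rw [mul_pow]
          calc u v ^ Fintype.card (Pl k) * α ^ Fintype.card (Pl k)
              ≤ ((2 * R) ^ Fintype.card (Pl k) * ∏ w, u w) * α :=
                mul_le_mul h3 hpow (pow_nonneg hα.le _) (by positivity)
            _ = (2 * R) ^ Fintype.card (Pl k) * ((∏ w, u w) * α) := by ring
            _ ≤ (2 * R) ^ Fintype.card (Pl k) * 1 := by
                refine mul_le_mul_of_nonneg_left ?_ (pow_nonneg h2R.le _)
                have h5 := hmem.2
                rwa [le_div_iff₀ hα] at h5
            _ = (2 * R) ^ Fintype.card (Pl k) := mul_one _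
        have h5 := le_of_pow_le_pow_left₀ hcard h2R.le h4
        rw [one_div, inv_div, le_div_iff₀ hα]
        exact h5

end Pool.Agent.H93.NVP_PU0
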